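import Pool.Agent.V5helper14.FB.Stm

/-!
# Project FB, job ACY: orderings of finite forests
-/

set_option autoImplicit false

namespace Pool.Agent.V5helper46.FB

open SimpleGraph

theorem t_ACY : Pool.Agent.V5helper14.FB.S_ACY := by
  classical
  intro V _ H hH
  have : Fintype V := Fintype.ofFinite V
  set K := Fintype.card V with hK
  set e := Fintype.equivFin V with he
  set root : V → V := fun v => (H.connectedComponentMk v).out with hrootdef
  have hroot : ∀ v, H.Reachable (root v) v := fun v => ConnectedComponent.exact (Quot.out_eq _)
  have hsame : ∀ v u, H.Adj v u → root u = root v := by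
    intro v u h
    have : H.connectedComponentMk u = H.connectedComponentMk v :=
      ConnectedComponent.sound h.symm.reachable
    rw [hrootdef]
    simp only [this]
  set d : V → ℕ := fun v => H.dist (root v) v with hd
  refine ⟨fun v => d v * K + e v, ?_, ?_⟩
  · intro v w h
    have h1 : (d v * K + e v) % K = (d w * K + e w) % K := congrArg (· % K) h
    rw [Nat.mul_comm, Nat.mul_add_mod, Nat.mod_eq_of_lt (e v).2, Nat.mul_comm, Nat.mul_add_mod,
      Nat.mod_eq_of_lt (e w).2] at h1
    exact e.injective (Fin.ext h1)
  · have key : ∀ v u, H.Adj v u → d u * K + e u < d v * K + e v →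
        ∃ (p : H.Walk (root v) u) (h : H.Adj u v), (p.concat h).IsPath := by
      intro v u hvu hlt
      have h1 : d u ≤ d v := by
        by_contra hcon
        push Not at hcon
        have h2 : (d v + 1) * K ≤ d u * K := Nat.mul_le_mul_right K hcon
        have h3 := (e v).2
        have h4 : (d v + 1) * K = d v * K + K := by ring
        omega
      have h2 : H.dist (root v) u = d u := by rw [hd]; simp only [hsame v u hvu]
      have h3 : H.dist (root v) v ≠ H.dist (root v) u := hH.dist_ne_of_adj hvu (hroot v)
      obtain ⟨p, hp⟩ := ((hroot v).trans hvu.reachable).exists_walk_length_eq_dist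
      have h4 : H.dist (root v) v ≤ (p.concat hvu.symm).length := dist_le _
      rw [Walk.length_concat, hp] at h4
      refine ⟨p, hvu.symm, ?_⟩
      apply Walk.isPath_of_length_eq_dist
      rw [Walk.length_concat, hp]
      have h5 : d v = H.dist (root v) v := rfl
      omega
    intro v u u' hvu hvu' hlt hlt'
    obtain ⟨p, h, hp⟩ := key v u hvu hlt
    obtain ⟨p', h', hp'⟩ := key v u' hvu' hlt'
    have h1 := hH.path_unique ⟨p.concat h, hp⟩ ⟨p'.concat h', hp'⟩
    have h2 : p.concat h = p'.concat h' := congrArg Subtype.val h1
    have h3 := congrArg Walk.penultimate h2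
    simpa using h3

end Pool.Agent.V5helper46.FB
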